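import Pool.Agent.H.MP_4e5d1f_mp.C

set_option autoImplicit false

open Matrix MeasureTheory
open scoped MatrixOrder ComplexOrder

namespace Pool.Agent.Results.MP_4e5d1f_mp.Yes

variable {d m : ℕ}

/-- `D_L(ρ) = L ρ L† - {L† L, ρ} / 2` -/
noncomputable def dissip (L ρ : Matrix (Fin d) (Fin d) ℂ) : Matrix (Fin d) (Fin d) ℂ :=
  L * ρ * Lᴴ - (1 / 2 : ℂ) • (Lᴴ * L * ρ + ρ * (Lᴴ * L))

/-- `-i [H, ρ] + ∑ j, D_{L j}(ρ)` -/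
noncomputable def lind (L : Fin m → Matrix (Fin d) (Fin d) ℂ) (H ρ : Matrix (Fin d) (Fin d) ℂ) :
    Matrix (Fin d) (Fin d) ℂ :=
  -Complex.I • (H * ρ - ρ * H) + ∑ j, dissip (L j) ρ

/-- trace norm `tr √(X† X)` -/
noncomputable def traceNorm (X : Matrix (Fin d) (Fin d) ℂ) : ℝ := (CFC.sqrt (Xᴴ * X)).trace.re

/-- Hermitian, measurable, locally bounded drive on `[0, ∞)` -/
def IsDrive (H : ℝ → Matrix (Fin d) (Fin d) ℂ) : Prop :=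
  (∀ t ≥ 0, (H t).IsHermitian) ∧
  (∀ i j, AEMeasurable (fun t => H t i j) (volume.restrict (Set.Ici 0))) ∧
  ∀ T : ℝ, ∃ M : ℝ, ∀ t ∈ Set.Icc 0 T, ∀ i j, ‖H t i j‖ ≤ M

/-- `E t s` solves `∂ₜ E t s = 𝓛ₜ ∘ E t s`, `E s s = id` (integral form) -/
def IsPropagator (L : Fin m → Matrix (Fin d) (Fin d) ℂ) (H : ℝ → Matrix (Fin d) (Fin d) ℂ)
    (E : ℝ → ℝ → Matrix (Fin d) (Fin d) ℂ → Matrix (Fin d) (Fin d) ℂ) : Prop :=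
  ∀ s ≥ 0, ∀ ρ, ContinuousOn (fun t => E t s ρ) (Set.Ici s) ∧
    ∀ t ≥ s, ∀ i j, E t s ρ i j = ρ i j + ∫ u in s..t, lind L (H u) (E u s ρ) i j

/-- density matrix -/
def IsDensity (ρ : Matrix (Fin d) (Fin d) ℂ) : Prop := ρ.PosSemidef ∧ ρ.trace = 1

theorem result : ∀ (d m : ℕ), 2 ≤ d → ∀ L : Fin m → Matrix (Fin d) (Fin d) ℂ,
    Algebra.adjoin ℂ (Set.range L) = ⊤ → ∃ K > 0, ∃ γ > 0, ∀ H, IsDrive H →
      ∀ E, IsPropagator L H E → ∀ s t : ℝ, 0 ≤ s → s ≤ t → ∀ ρ σ, IsDensity ρ → IsDensity σ →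
        traceNorm (E t s ρ - E t s σ) ≤ K * Real.exp (-γ * (t - s)) * traceNorm (ρ - σ) := by
  intro d m hd L hL
  obtain ⟨K, hK, γ, hγ, h⟩ := Pool.Agent.H.MP_4e5d1f_mp.main' L hL (by simpa using hd)
  refine ⟨K, hK, γ, hγ, fun H ⟨h1, h2, h3⟩ E hE s t hs hst ρ σ hρ hσ => ?_⟩
  obtain ⟨M, hM⟩ := h3 t
  exact h H (fun u => E u s ρ) (fun u => E u s σ) s t M hst
    (fun u hu => ⟨h1 u (hs.trans hu.1), hM u ⟨hs.trans hu.1, hu.2⟩⟩)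
    (fun i j => (h2 i j).mono_set fun u hu => hs.trans hu.1)
    ((hE s hs ρ).1.mono Set.Icc_subset_Ici_self) ((hE s hs σ).1.mono Set.Icc_subset_Ici_self) ρ σ
    (fun u hu => (hE s hs ρ).2 u hu.1) (fun u hu => (hE s hs σ).2 u hu.1)
    (hρ.1.isHermitian.sub hσ.1.isHermitian) (by rw [trace_sub, hρ.2, hσ.2, sub_self])

end Pool.Agent.Results.MP_4e5d1f_mp.Yes
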